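import Mathlib
import Pool.Agent.Work.MP_345ef2_gt_24.T_Main

/-!
# Compact hyperbolic Coxeter polytopes have dimension at most 24

Vinberg proved in 1984 that there is no compact Coxeter polytope in hyperbolic space of dimension
30 or more.  Here we exclude dimensions 25 to 29.

Outline of the proof.

* `Geo`, `Andreev`, `Gram`, `Faces`, `Edges`: the polytope is simple; its faces are the positive
  definite sets of facets; the Gram matrix has one negative eigenvalue.
* `Count`, `Count2`: the average number of edges of a 2-face of a simple polytope is small
  (Nikulin's inequality, by a generic linear functional; the inequality is strict).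
* `Lanner`, `Order*`, `Shape*`, `Cls`: the minimal non positive definite sets (Lannér's theorem).
* `Account*`, `Quads`, `D2`, `VLevel`: the triangular and quadrangular 2-faces are charged to the
  vertices, to the pairs of facets at distance two in the diagram of a vertex and to the edges of
  the polytope.
* `Rule`: the charging rule (the files in the folder `MP_345ef2_gt_24`); `D_*`: every quadrangle
  is paid; `T_*`: no edge pays too much; `VLevel`: no vertex pays too much.
-/

namespace Pool.Agent.Results.MP_345ef2_gt.DimensionAtMost24

open MP345

/-- **There is no compact Coxeter polytope in hyperbolic `n`-space for `n ≥ 25`.** -/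
theorem result (n : ℕ) (P : CoxeterPolytope n) : n ≤ 24 := dim_le_24 P

end Pool.Agent.Results.MP_345ef2_gt.DimensionAtMost24
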