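import Mathlib
import Pool.Agent.Work.MP_345ef2_irr.Loc

/-!
# Compact hyperbolic Coxeter polytopes: every face has a vertex whose group has a large
irreducible factor

Outline of the proof (`MP_345ef2_irr`).

* A face `F` of dimension `m` is given by the set `T` of the `n - m` facets which contain it; its
  vertices are the vertices of the polytope on all the facets in `T`.
* For a 2-face of `F` and a vertex `v` of it let `a, b` be the two facets through `v` which do not
  contain the 2-face.  The corner is good if `a` and `b` lie in one component of the Coxeter diagram
  of the facets through `v`.
* A triangular 2-face has at least two good corners: the `n + 1` facets involved contain a Lannér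
  set, which is connected and contains the three facets `a, b, c` that cut out the sides, and at
  most one of `a, b, c` separates the other two.
* A quadrangular 2-face has a good corner: the two Lannér sets that contain the pairs of opposite
  sides meet or are joined by an edge, since the Gram matrix has one negative eigenvalue.
* With Nikulin's inequality for the 2-faces of `F`: if at all vertices `v` of `F` all components of
  the diagram of `v` contain at most `c` facets which are not in `T`, then `m ≤ 4 c`.
-/

namespace Pool.Agent.Results.MP_345ef2_gt.IrreducibleFactors

open MP345

/-- **Every face of dimension `m ≥ 2` of a compact Coxeter polytope in hyperbolic `n`-space has a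
vertex `x` and a set `S` of facets through `x` whose Coxeter diagram is connected and which
contains at least `m / 4` facets that do not contain the face.**  The face is given by the set `T`
of the `n - m` facets that contain it; `T` is contained in the set of the facets through a
vertex. -/
theorem result (n : ℕ) (P : CoxeterPolytope n) (T : Finset P.ι)
    (hT : ∃ y ∈ Hyp n, (∀ k, lor y (P.u k) ≤ 0) ∧ Nat.card {k // lor y (P.u k) = 0} = n ∧
      ∀ k ∈ T, lor y (P.u k) = 0) (hm : T.card + 2 ≤ n) :
    ∃ x ∈ Hyp n, (∀ k, lor x (P.u k) ≤ 0) ∧ Nat.card {k // lor x (P.u k) = 0} = n ∧
      (∀ k ∈ T, lor x (P.u k) = 0) ∧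
      ∃ S : Finset P.ι, (∀ i ∈ S, lor x (P.u i) = 0) ∧
        (∀ i ∈ S, ∀ j ∈ S, Joined P S i j) ∧
        n ≤ T.card + 4 * Nat.card {i // i ∈ S ∧ i ∉ T} :=
  exists_large_factor_face (by omega) P T hT hm

end Pool.Agent.Results.MP_345ef2_gt.IrreducibleFactors
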