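import Mathlib
import Pool.Agent.Work.MP_345ef2_irr.Face3

/-!
# Compact hyperbolic Coxeter polytopes: many dihedral angles at the vertices of every face are not
right angles

Outline of the proof (`MP_345ef2_irr`, `MP_345ef2_gt`).

* A face of dimension `m` is given by the set `T` of the `n - m` facets which contain it.  Its vertices
  are the vertices `v ⊇ T` of the polytope, its 2-faces the 2-faces `K ⊇ T`.
* Call a corner of a 2-face good if the two facets through it which do not contain the 2-face lie in
  one component of the Coxeter diagram of the vertex.  A triangular 2-face has at least two good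
  corners, a quadrangular one has at least one (`Irr.lean`).
* With Nikulin's inequality for the 2-faces of the face (`Face.lean`): the mean over the vertices of
  the face of the number of pairs of facets outside `T` in common components is more than
  `m (m - 6) / 8`, for odd `m` more than `(m - 1) (m - 5) / 8`.
* A diagram with `e` edges that are not inside `T` has at most `e (e + 1) / 2` pairs outside `T` in
  common components (`fa_pairs`, `Face2.lean`).
-/

namespace Pool.Agent.Results.MP_345ef2_gt.NonRightAngles

open MP345

/-- **Non-right dihedral angles at the vertices of the faces of a compact Coxeter polytope.**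
Let `P` be a compact Coxeter polytope in hyperbolic `n`-space, `n ≥ 2`, let `F` be a face of dimension
`m ≥ 2` (`m = n` is allowed) and `T` the set of the `n - m` facets which contain `F`.  For a vertex
`v` of `F` let `e(v)` be the number of the dihedral angles at `v`, not between two facets in `T`,
that are not right angles.  Then some vertex of `F` has `m ≤ 2 e(v) + 4`; the mean of `e (e + 1)`
over the vertices of `F` is more than `m (m - 6) / 4`, for odd `m` more than `(m - 1) (m - 5) / 4`,
and the mean of `e` is more than `m (m - 6) / (4 n)`. -/
theorem result (n : ℕ) (hn : 2 ≤ n) (P : CoxeterPolytope n) (T : Finset P.ι)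
    (hT : (VFace P T).Nonempty) (hm : T.card + 2 ≤ n) :
    (∃ v ∈ VFace P T, n ≤ T.card + 2 * nraT P T v + 4) ∧
    ((n : ℝ) - T.card) * ((n : ℝ) - T.card - 6) * (VFace P T).card <
      4 * ∑ v ∈ VFace P T, (nraT P T v : ℝ) * ((nraT P T v : ℝ) + 1) ∧
    (Odd (n - T.card) → ((n : ℝ) - T.card - 1) * ((n : ℝ) - T.card - 5) * (VFace P T).card <
      4 * ∑ v ∈ VFace P T, (nraT P T v : ℝ) * ((nraT P T v : ℝ) + 1)) ∧
    ((n : ℝ) - T.card) * ((n : ℝ) - T.card - 6) * (VFace P T).card <
      4 * n * ∑ v ∈ VFace P T, (nraT P T v : ℝ) :=
  ⟨(face_angles hn P T hT hm).1, (face_angles hn P T hT hm).2.1, (face_angles hn P T hT hm).2.2,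
    face_mean hn P T hT hm⟩

end Pool.Agent.Results.MP_345ef2_gt.NonRightAngles
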