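import Mathlib
import Pool.Agent.Work.MP_345ef2_pi3.Main

/-!
# Compact hyperbolic Coxeter polytopes: dihedral angles `π / 3`

Outline of the proof (`MP_345ef2_pi3`, `MP_345ef2_irr`).

* In a connected positive definite Coxeter diagram at most one edge has a label different from 3
  (`p3_unique`), so a component with `s` facets outside `T` has at least `s - 2` edges of label 3
  that are not inside `T` (`p3_size`).
* So a vertex with `e` such edges has at most `(e (e + 2) + m) / 2` pairs of facets outside `T` in
  common components (`p3_pairs`).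
* Nikulin's inequality for the 2-faces of the face and the good corners of triangular and
  quadrangular 2-faces (`Face.lean`, `Irr.lean`): the mean number of these pairs is more than
  `m (m - 6) / 8`, for odd `m` more than `(m - 1) (m - 5) / 8`.
-/

namespace Pool.Agent.Results.MP_345ef2_gt.PiThirdAngles

open MP345

/-- **Dihedral angles `π / 3` of compact Coxeter polytopes.**  Let `P` be a compact Coxeter polytope
in hyperbolic `n`-space, let `F` be a face of dimension `m ≥ 2` (`m = n` is allowed) and `T` the set
of the `n - m` facets which contain `F`.  Then `F` has a vertex `v` with `m ≤ 2 e(v) + 8`, where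
`e(v)` is the number of the pairs of facets through `v`, not both in `T`, whose dihedral angle is
`π / 3`. -/
theorem result (n : ℕ) (P : CoxeterPolytope n) (T : Finset P.ι)
    (hT : (VFace P T).Nonempty) (hm : T.card + 2 ≤ n) :
    ∃ v ∈ VFace P T, n ≤ T.card + 2 * piThree P T v + 8 :=
  pi_three (by omega) P T hT hm

/-- Consequence: a compact Coxeter polytope of dimension at least 9 has a dihedral angle
`π / 3`. -/
theorem exists_angle (n : ℕ) (hn : 9 ≤ n) (P : CoxeterPolytope n) :
    ∃ v ∈ VSets P, ∃ i ∈ v, ∃ j ∈ v, i ≠ j ∧ lor (P.u i) (P.u j) = -(1 / 2) := by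
  classical
  obtain ⟨w, hw, _⟩ := (many_angles (by omega) P).1
  obtain ⟨v, hv, hle⟩ := result n P ∅ ⟨w, mem_VFace.2 ⟨hw, Finset.empty_subset _⟩⟩
    (by rw [Finset.card_empty]; omega)
  rw [Finset.card_empty] at hle
  have hpos : 0 < piThree P ∅ v := by omega
  unfold piThree at hpos
  obtain ⟨p, hp⟩ := Finset.card_pos.1 hpos
  rw [Finset.mem_filter, Finset.mem_powersetCard] at hp
  obtain ⟨⟨hpv, _⟩, ⟨i, hi, j, hj, hij, hg⟩, _⟩ := hp
  exact ⟨v, (mem_VFace.1 hv).1, i, hpv hi, j, hpv hj, hij, hg⟩

end Pool.Agent.Results.MP_345ef2_gt.PiThirdAngles
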